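import Pool.Agent.P.MP_a6af55_an.Model
import Pool.Agent.P.MP_a6af55_an.Embed
import Pool.Agent.P.MP_a6af55_an.RF
import Pool.Agent.P.MP_a6af55_an.Tree

open Pool.Agent.Lib.Tracial Pool.Agent.P.MP_a6af55_an

universe v

theorem Pool.Agent.Results.MP_a6af55_an.Continuum.result :
    ∃ N : (ℕ → Bool) → II1Factor.{0},
      (∀ α, (N α).tr.Separable ∧ ∀ U : Ultrafilter ℕ, (∀ n, U ≠ pure n) →
        SuperMcDuff (N α).tr U ∧ ∀ R : II1Factor.{0}, EmbedsUltra (N α).tr R.tr U) ∧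
      ∀ α β, α ≠ β → ¬ ElemEquiv.{0, v} (N α).tr (N β).tr := by
  let b : (ℕ → Bool) → ℕ → Bool := fun α n => Nat.rec false (fun m _ => Nat.rec false
    (fun k _ => α k) m) n
  let S := fun α => treeSys (β := b α) rfl rfl
  choose N hN using fun α => exists_lg (RG (Gr (b α))) fun _ _ _ _ L => isInfFactor L (S α)
  refine ⟨N, fun α => ?_, fun α β hne h => hne ?_⟩
  · obtain ⟨L⟩ := hN α
    exact ⟨L.separable, fun U hU => ⟨superMcDuff L (S α) U hU,
      fun R => embedsUltra R.tr R.isInfFactor L det_all U hU⟩⟩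
  · obtain ⟨L⟩ := hN α
    obtain ⟨L'⟩ := hN β
    exact funext fun k => congrFun (bit_eq_of_elemEquiv L L' (S α) (S β) h) (k + 1)
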