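import Pool.Agent.P.MP_a6af55_an.PwMain
import Pool.Agent.P.MP_a6af55_an.PwUniq

open Pool.Agent.Lib.Tracial Pool.Agent.P.MP_a6af55_an

universe v

theorem Pool.Agent.Results.MP_a6af55_an.Powers.result :
    ∃ M : ℕ → II1Factor.{0},
      (∀ k, IsTensor (M 0).tr (M k).tr (M (k + 1)).tr) ∧
      (∀ k, (M k).tr.Separable ∧ ∀ U : Ultrafilter ℕ, (∀ n, U ≠ pure n) →
        SuperMcDuff (M k).tr U ∧ ∀ Q : II1Factor.{0}, EmbedsUltra (M k).tr Q.tr U) ∧
      ∀ k l, k ≠ l → ¬ ElemEquiv.{0, v} (M k).tr (M l).tr := by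
  choose M hM using fun k : ℕ => exists_twII1 (εP (Fin (k + 1) → Pw.FH)) fun _ _ _ _ L =>
    tw_isInfFactor L Pw.pp_diag
  refine ⟨M, fun k => ?_, fun k => ?_, fun k l hne h => hne ?_⟩
  · obtain ⟨j1, j2, h1, h2, h3, h4, h5⟩ := Pw.fin_split (G := Pw.FH) k
    exact Pw.isTensor_tw j1 j2 h1 h2 h3 h4 h5 (hM 0).some (hM k).some (hM (k + 1)).some
  · obtain ⟨L⟩ := hM k
    exact ⟨L.separable, fun U hU => ⟨tw_superMcDuff L Pw.pp_diag U hU,
      fun Q => tw_embedsUltra L Q.tr Q.isInfFactor Pw.det_pi U hU⟩⟩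
  · have h1 := Pw.card_le (hM l).some (hM k).some h
    have h2 := Pw.card_le (hM k).some (hM l).some (Pw.symm_equiv h)
    simp only [Fintype.card_fin] at h1 h2
    omega

/-- The tensor product condition fixes the third factor up to isomorphism. -/
theorem Pool.Agent.Results.MP_a6af55_an.Powers.tensor_unique (A B C D : II1Factor.{0})
    (h : IsTensor A.tr B.tr C.tr) (h' : IsTensor A.tr B.tr D.tr) :
    Nonempty (C.Alg ≃⋆ₐ[ℂ] D.Alg) := Pw.tensor_unique h h'
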